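import Pool.Agent.Helper86.AN.Stmts

set_option autoImplicit false

namespace Pool.Agent.Helper21.AN

open Pool.Agent.Helper86.AN Finset

theorem int_eq_of_dvd {n x y : ℤ} (h : n ∣ x - y) (h1 : x - y < n) (h2 : -n < x - y) :
    x = y := by
  obtain ⟨k, hk⟩ := h
  have hn : 0 < n := by linarith
  have hk1 : k < 1 := by
    by_contra hc
    push Not at hc
    have : n * 1 ≤ n * k := mul_le_mul_of_nonneg_left hc hn.le
    linarith
  have hk2 : -1 < k := by
    by_contra hc
    push Not at hc
    have : n * k ≤ n * (-1) := mul_le_mul_of_nonneg_left hc hn.le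
    linarith
  have : k = 0 := by omega
  subst this
  simp at hk
  linarith

theorem st_COL (hRF : ST_RF) (hENVF : ST_ENVF) : ST_COL := by
  classical
  intro V _ _ s A m w u n e c i a j hK hZ hE haj hjn
  obtain ⟨hm, hAp, -, hne, -, -, -, -, -⟩ := hRF V s A m w u hK
  obtain ⟨hce, hcw, hew, hww, -⟩ := hENVF V s A m w u n e c hK hZ hE
  have hbw := hE.bw
  have hbm := hE.bm
  set P : V → Prop := fun v => ∃ t : ℤ, a ≤ t ∧ t < j ∧ (v = w (e t) ∨ v = e (t + 1)) with hP
  have harc : ∀ v, arc w e c a j v = if P v then !(c v) else c v := by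
    intro v
    rfl
  have hcol : ∀ (i : Bool), ∀ v ∈ Ap A u, col w u e i c a j v = if P v then !(c v) else c v := by
    intro i v hv
    have h1 := ((hAp v).1 hv).2
    unfold col
    rw [if_neg (h1 i), if_neg (h1 (!i)), harc]
  have hF1 : ∀ t, a < t → t ≤ a + n → (P (e t) ↔ t ≤ j) := by
    intro t h1 h2
    constructor
    · rintro ⟨t', h3, h4, h5 | h5⟩
      · exact absurd h5 (hew t t')
      · have h6 := (hZ.per _ _).1 h5
        have := int_eq_of_dvd h6 (by linarith) (by linarith)
        omega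
    · intro h3
      exact ⟨t - 1, by omega, by omega, Or.inr (by congr 1; ring)⟩
  have hF2 : ∀ t, a ≤ t → t < a + n → (P (w (e t)) ↔ t < j) := by
    intro t h1 h2
    constructor
    · rintro ⟨t', h3, h4, h5 | h5⟩
      · have h6 := (hww _ _).1 h5
        have := int_eq_of_dvd h6 (by linarith) (by linarith)
        omega
      · exact absurd h5.symm (hew (t' + 1) t)
    · intro h3
      exact ⟨t, h1, h3, Or.inl rfl⟩
  have hwA : ∀ k, w (e k) ∈ Ap A u := fun k => (hK.winv _ (hZ.eA k)).1
  have hPm' : ∀ v, P v → P (m v) := by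
    rintro v ⟨t, h1, h2, h3 | h3⟩
    · exact ⟨t, h1, h2, Or.inr (by rw [h3, hZ.om])⟩
    · refine ⟨t, h1, h2, Or.inl ?_⟩
      rw [h3, ← hZ.om]
      exact (hm _ (hwA t)).2.1
  have hPm : ∀ v ∈ Ap A u, (P (m v) ↔ P v) := by
    intro v hv
    constructor
    · intro h
      have := hPm' _ h
      rwa [(hm v hv).2.1] at this
    · exact hPm' v
  have hPw' : ∀ v, v ≠ e a → v ≠ w (e a) → v ≠ e j → v ≠ w (e j) → P v → P (w v) := by
    rintro v h1 h2 h3 h4 ⟨t, h5, h6, h7 | h7⟩
    · have hta : t ≠ a := by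
        rintro rfl
        exact h2 h7
      refine ⟨t - 1, by omega, by omega, Or.inr ?_⟩
      rw [h7, (hK.winv _ (hZ.eA t)).2.1]
      congr 1
      ring
    · have htj : t + 1 ≠ j := by
        rintro rfl
        exact h3 h7
      refine ⟨t + 1, by omega, by omega, Or.inl ?_⟩
      rw [h7]
  have hPw : ∀ v ∈ Ap A u, v ≠ e a → v ≠ w (e a) → v ≠ e j → v ≠ w (e j) →
      (P (w v) ↔ P v) := by
    intro v hv h1 h2 h3 h4
    have hwv := (hK.winv v hv).2.1
    constructor
    · intro h
      have := hPw' (w v) ?_ ?_ ?_ ?_ h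
      · rwa [hwv] at this
      · intro h5
        exact h2 (by rw [← hwv, h5])
      · intro h5
        exact h1 (by rw [← hwv, h5, (hK.winv _ (hZ.eA a)).2.1])
      · intro h5
        exact h4 (by rw [← hwv, h5])
      · intro h5
        exact h3 (by rw [← hwv, h5, (hK.winv _ (hZ.eA j)).2.1])
    · exact hPw' v h1 h2 h3 h4
  have hui : col w u e i c a j (u i) = false := by
    unfold col
    rw [if_pos rfl]
  have hui' : col w u e i c a j (u (!i)) = true := by
    unfold col
    rw [if_neg (hne i).symm, if_pos rfl]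
  refine ⟨?_, ?_, ?_, ?_, ?_, ?_, hui, hui'⟩
  · intro v hv
    by_cases h1 : v = u i
    · rw [h1, hK.mu, hui, hui']
      rfl
    · by_cases h2 : v = u (!i)
      · rw [h2, hK.mu, Bool.not_not, hui, hui']
        rfl
      · have hvA : v ∈ Ap A u := by
          rw [hAp]
          refine ⟨hv, fun i' => ?_⟩
          rcases Bool.eq_or_eq_not i' i with h | h
          · rw [h]; exact h1
          · rw [h]; exact h2
        rw [hcol i v hvA, hcol i _ (hm v hvA).1, hbm v hvA]
        by_cases hp : P v
        · rw [if_pos hp, if_pos ((hPm v hvA).2 hp)]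
        · rw [if_neg hp, if_neg (fun h => hp ((hPm v hvA).1 h))]
  · intro t h1 h2
    rw [hcol i _ (hZ.eA t), hce]
    by_cases hp : P (e t)
    · rw [if_pos hp]
      have := (hF1 t h1 h2).1 hp
      constructor
      · intro h; simp at h
      · intro h; omega
    · rw [if_neg hp]
      have : ¬ (t ≤ j) := fun h => hp ((hF1 t h1 h2).2 h)
      constructor
      · intro _; omega
      · intro _; rfl
  · intro t h1 h2
    rw [hcol i _ (hwA t), hcw]
    by_cases hp : P (w (e t))
    · rw [if_pos hp]
      have := (hF2 t h1 h2).1 hp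
      constructor
      · intro _; omega
      · intro _; rfl
    · rw [if_neg hp]
      have : ¬ (t < j) := fun h => hp ((hF2 t h1 h2).2 h)
      constructor
      · intro h; simp at h
      · intro h; omega
  · intro v hv h1 h2 h3 h4
    rw [hcol i v hv, hcol i _ (hK.winv v hv).1, hbw v hv]
    by_cases hp : P v
    · rw [if_pos hp, if_pos ((hPw v hv h1 h2 h3 h4).2 hp)]
    · rw [if_neg hp, if_neg (fun h => hp ((hPw v hv h1 h2 h3 h4).1 h))]
  · intro v hv hz
    rw [hcol i v hv, if_neg]
    rintro ⟨t, -, -, h | h⟩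
    · exact hz ⟨t, Or.inr h⟩
    · exact hz ⟨t + 1, Or.inl h⟩
  · intro v hv
    rw [hcol i v hv, hcol (!i) v hv]

end Pool.Agent.Helper21.AN
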