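import Pool.Agent.Helper86.AN.Stmts

set_option autoImplicit false

namespace Pool.Agent.Helper21.AN

open Pool.Agent.Helper86.AN Finset

theorem st_ISO : ST_ISO := by
  classical
  intro V _ _ G s m c hG hBi hBal
  obtain ⟨φ, hφ⟩ := hBal
  have h1 : ∀ v, φ (φ v) = v := fun v => (hφ v (mem_univ v)).2.1
  have h2 : ∀ v, c (φ v) = !(c v) := fun v => (hφ v (mem_univ v)).2.2.1
  have h3 : ∀ v w, c v = c w → (s v = w ↔ s (φ v) = φ w) :=
    fun v w hc => (hφ v (mem_univ v)).2.2.2 w (mem_univ w) hc
  have hmem : ∀ v, v ∈ ((univ.filter (fun v => c v = true) : Finset V) : Set V) ↔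
      c v = true := by
    intro v
    simp
  have hmem' : ∀ v, v ∈ ((univ.filter (fun v => c v = true) : Finset V) : Set V)ᶜ ↔
      c v = false := by
    intro v
    simp
  refine ⟨univ.filter (fun v => c v = true), ?_, ?_⟩
  · have h4 : (univ.filter (fun v => c v = true)).card =
        (univ.filter (fun v => ¬ c v = true)).card := by
      refine Finset.card_bij' (fun v _ => φ v) (fun v _ => φ v) ?_ ?_ ?_ ?_
      · intro v hv
        simp only [mem_filter, mem_univ, true_and] at hv ⊢
        rw [h2, hv]
        simp
      · intro v hv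
        simp only [mem_filter, mem_univ, true_and] at hv ⊢
        rw [h2]
        simpa using hv
      · intro v _
        exact h1 v
      · intro v _
        exact h1 v
    have h5 := Finset.card_filter_add_card_filter_not (s := (univ : Finset V))
      (fun v => c v = true)
    rw [Finset.card_univ] at h5
    omega
  · refine ⟨⟨⟨fun v => ⟨φ v.1, ?_⟩, fun v => ⟨φ v.1, ?_⟩, ?_, ?_⟩, ?_⟩⟩
    · have := (hmem v.1).1 v.2
      rw [hmem', h2, this]
      rfl
    · have := (hmem' v.1).1 v.2
      rw [hmem, h2, this]
      rfl
    · intro v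
      exact Subtype.ext (h1 v.1)
    · intro v
      exact Subtype.ext (h1 v.1)
    · rintro ⟨v, hv⟩ ⟨w, hw⟩
      have hv' := (hmem v).1 hv
      have hw' := (hmem w).1 hw
      have hvw : c v = c w := by rw [hv', hw']
      have hm : ∀ v w, c v = c w → m v ≠ w := by
        intro v w h5 h6
        have := hBi v (mem_univ v)
        rw [h6, ← h5] at this
        cases h7 : c v <;> simp [h7] at this
      simp only [Equiv.coe_fn_mk, SimpleGraph.comap_adj, Function.Embedding.subtype_apply]
      rw [hG, hG]
      have h4 : c (φ v) = c (φ w) := by rw [h2, h2, hvw]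
      constructor
      · rintro (h | h | h)
        · exact Or.inl ((h3 v w hvw).2 h)
        · exact Or.inr (Or.inl ((h3 w v hvw.symm).2 h))
        · exact absurd h (hm _ _ h4)
      · rintro (h | h | h)
        · exact Or.inl ((h3 v w hvw).1 h)
        · exact Or.inr (Or.inl ((h3 w v hvw.symm).1 h))
        · exact absurd h (hm _ _ hvw)

end Pool.Agent.Helper21.AN
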