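import Pool.Agent.Helper86.AN.Stmts

set_option autoImplicit false

namespace Pool.Agent.Helper21.AN

open Pool.Agent.Helper86.AN Finset

theorem st_POS (_hRF : ST_RF) (hCOL : ST_COL) (hENVF : ST_ENVF) : ST_POS := by
  classical
  intro V _ _ s A m w u n e c₀ i i' o p q z hK hZ hE hz hop hpq hqn h1 h2
  obtain ⟨-, -, -, hww, c', hc'E, -, hc'2⟩ := hENVF V s A m w u n e c₀ hK hZ hE
  have hn := hZ.npos
  obtain ⟨-, hA1, hA2, -, hA4, -, -, -⟩ :=
    hCOL V s A m w u n e c₀ i o p hK hZ hE hop (by linarith)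
  obtain ⟨-, hB1, hB2, -, -, -, -, -⟩ :=
    hCOL V s A m w u n e c₀ i' p q hK hZ hE hpq (by linarith)
  by_cases hin : InZ w e z
  · obtain ⟨k, hk | hk⟩ := hin
    · have hm0 := Int.emod_nonneg (k - (o + 1)) hn.ne'
      have hm1 := Int.emod_lt_of_pos (k - (o + 1)) hn
      have hdv : n ∣ k - (o + 1 + (k - (o + 1)) % n) := by
        have : k - (o + 1 + (k - (o + 1)) % n) = (k - (o + 1)) - (k - (o + 1)) % n := by ring
        rw [this]
        exact Int.dvd_self_sub_emod
      set t := o + 1 + (k - (o + 1)) % n with ht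
      have hzt : z = e t := by rw [hk]; exact (hZ.per k t).2 hdv
      have h3 : p < t := (hA1 t (by omega) (by omega)).1 (by rw [← hzt]; exact h1 c₀ hE)
      have h4 : q < t := (hB1 t h3 (by omega)).1 (by rw [← hzt]; exact h2 c₀ hE)
      exact ⟨t, h4, by omega, hzt⟩
    · exfalso
      have hm0 := Int.emod_nonneg (k - o) hn.ne'
      have hm1 := Int.emod_lt_of_pos (k - o) hn
      have hdv : n ∣ k - (o + (k - o) % n) := by
        have : k - (o + (k - o) % n) = (k - o) - (k - o) % n := by ring
        rw [this]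
        exact Int.dvd_self_sub_emod
      set t := o + (k - o) % n with ht
      have hzt : z = w (e t) := by rw [hk]; exact (hww k t).2 hdv
      have h3 : t < p := (hA2 t (by omega) (by omega)).1 (by rw [← hzt]; exact h1 c₀ hE)
      have hzt' : z = w (e (t + n)) := by
        rw [hzt]
        exact (hww t (t + n)).2 ⟨-1, by ring⟩
      have h4 : t + n < q :=
        (hB2 (t + n) (by omega) (by omega)).1 (by rw [← hzt']; exact h2 c₀ hE)
      omega
  · exfalso
    have h3 := hA4 z hz hin
    rw [h1 c₀ hE] at h3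
    obtain ⟨-, -, -, -, hC4, -, -, -⟩ :=
      hCOL V s A m w u n e c' i o p hK hZ hc'E hop (by linarith)
    have h4 := hC4 z hz hin
    rw [h1 c' hc'E, hc'2 z hz hin, ← h3] at h4
    simp at h4

end Pool.Agent.Helper21.AN
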